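import Mathlib
import Pool.Agent.Lib.MPdf2971.Defs
import Pool.Agent.Lib.MPdf2971.Proof

set_option autoImplicit false

open Pool.Agent.Lib.MPdf2971

/-- **The trichotomy fails over `ℤ` for every base `k ≥ 2`.** The set `X = evenVal k` of nonzero
integers in which `k` has even exact exponent is recognized by a finite automaton, `(ℤ, +, X)` is
not stable, `(ℤ, +, X)` and `(ℤ, <, +, k ^ ℕ)` do not define the same sets, and `(ℤ, +, X)` does
not define `V_k`. Moreover `(ℤ, +, X)` defines neither the ordering nor `k ^ ℕ`. -/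
theorem Pool.Agent.Results.MP_df2971_lc.EvenValuation.result (k : ℕ) (hk : 2 ≤ k) :
    Recognized k hk (evenVal k) ∧
    ¬ StableX (evenVal k) ∧
    ¬ SameDefinableSets (evenVal k) (Set.range fun j : ℕ => (k : ℤ) ^ j) ∧
    ¬ DefX (evenVal k) {v : Fin 2 → ℤ | v 1 = V k (v 0)} ∧
    ¬ DefX (evenVal k) {v : Fin 2 → ℤ | v 0 < v 1} ∧
    ¬ DefX (evenVal k) {v : Fin 1 → ℤ | ∃ j : ℕ, v 0 = (k : ℤ) ^ j} :=
  ⟨recognized_evenVal k hk, unstable k hk,
    fun h => not_def_pow k hk ((h 1 _).2 (def_pow k)),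
    not_def_V k hk, not_def_lt k hk, not_def_pow k hk⟩
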